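import Pool.Agent.Q207.Ear.Main

/-!
# MP_cf6e1a_co, Q1: a complex with a convex ear decomposition that is not shellable

The definitions are in `Pool/Agent/Q207/Ear/Defs.lean`.  `HasConvexEarDecomposition K 4` says that
`K` is pure of dimension 3 and admits a convex ear decomposition in the sense of the problem:
the first complex is the boundary complex of a simplicial 4-polytope, each later one is a
simplicial 3-ball isomorphic to a proper subcomplex of the boundary complex of a simplicial
4-polytope, each later one meets the union of the earlier ones exactly in its boundary complex,
and `K` is the union of all of them.
-/

namespace Pool.Agent.Results.MP_cf6e1a_co.NonshellableConvexEar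

open Q207.Ear

theorem result : ∃ (V : Type) (_ : Fintype V) (K : Cpx V),
    HasConvexEarDecomposition K 4 ∧ ¬ Shellable K :=
  main

end Pool.Agent.Results.MP_cf6e1a_co.NonshellableConvexEar
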